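import Pool.Agent.Helper98_CC.Stmts

/-!
CC, module GRD: the genus `g` count modulo `M`.
-/

open scoped BigOperators

noncomputable section

namespace Pool.Agent.Helper26_CC

open Pool.Agent.Helper51_AWC Pool.Agent.Helper79_WRA Pool.Agent.Helper98_CC

/-- a rational algebraic integer is an integer -/
theorem rat_int {a b : ℤ} (h : IsIntegral ℤ ((a : ℂ) / b)) :
    ∃ n : ℤ, (a : ℂ) / b = n := by
  have h1 : IsIntegral ℤ ((a : ℚ) / b) := by
    have h2 : algebraMap ℚ ℂ ((a : ℚ) / b) = (a : ℂ) / b := by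
      simp
    rw [← h2] at h
    exact (isIntegral_algebraMap_iff (algebraMap ℚ ℂ).injective).1 h
  obtain ⟨n, hn⟩ := (IsIntegrallyClosed.isIntegral_iff (R := ℤ) (K := ℚ)).1 h1
  refine ⟨n, ?_⟩
  have h3 : ((a : ℚ) / b) = n := by rw [← hn]; simp
  have h4 := congrArg (fun q : ℚ => (q : ℂ)) h3
  push_cast at h4
  exact h4

section
variable {G : Type} [Group G] [Fintype G]

theorem codeg_ai {χ : G → ℂ} (hχ : χ ∈ Irr G) : IsIntegral ℤ ((Fintype.card G : ℂ) / χ 1) := by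
  classical
  have := Fintype.ofFinite (ConjClasses G)
  rw [codeg_eq hχ]
  apply IsIntegral.sum
  intro K _
  exact (omega_integral _ hχ _).mul (irr_integral hχ _)

/-- `|G| / χ(1)` is a natural number -/
theorem codeg_nat {χ : G → ℂ} (hχ : χ ∈ Irr G) :
    ∃ m : ℕ, (Fintype.card G : ℂ) / χ 1 = m := by
  obtain ⟨d, hd, h⟩ := irr_one hχ
  have h1 := codeg_ai hχ
  rw [h] at h1
  have h2 : ((Fintype.card G : ℤ) : ℂ) / ((d : ℤ) : ℂ) = (Fintype.card G : ℂ) / d := by
    push_cast; rfl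
  rw [← h2] at h1
  obtain ⟨n, hn⟩ := rat_int h1
  have hd0 : ((d : ℤ) : ℂ) ≠ 0 := by exact_mod_cast hd.ne'
  have h3 : (Fintype.card G : ℤ) = n * d := by
    have h4 := (div_eq_iff hd0).1 hn
    exact_mod_cast h4
  have hn0 : 0 ≤ n := by
    by_contra hneg
    push Not at hneg
    have h4 : (0 : ℤ) ≤ Fintype.card G := by positivity
    have h5 : (0 : ℤ) < d := by exact_mod_cast hd
    have h6 : n * (d : ℤ) < 0 := mul_neg_of_neg_of_pos hneg h5
    linarith
  refine ⟨n.toNat, ?_⟩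
  rw [h, ← h2, hn]
  have h5 : ((n.toNat : ℤ)) = n := Int.toNat_of_nonneg hn0
  rw [← h5]
  push_cast
  rfl

theorem cent_eq {χ : G → ℂ} (hχ : χ ∈ Irr G) (g : G) : (Fintype.card G : ℂ) / χ 1 * χ g =
      (Nat.card (Subgroup.centralizer {g} : Subgroup G) : ℂ) * omega (MonoidHom.id G) χ g := by
  classical
  have h1 : omega (MonoidHom.id G) χ g =
      ((Finset.univ.filter fun h => IsConj g h).card : ℂ) * χ g / χ 1 := by
    rw [omega_eq]
    congr 1
    simp only [MonoidHom.id_apply]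
    rw [← Finset.sum_filter]
    have : ∀ h ∈ Finset.univ.filter (fun h => IsConj g h), χ h = χ g := by
      intro h hh
      exact (irr_isConj hχ (Finset.mem_filter.1 hh).2).symm
    rw [Finset.sum_congr rfl this, Finset.sum_const, nsmul_eq_mul]
  have h2 := card_class g
  rw [h1, ← h2]
  push_cast
  ring

end

/-- the residue of a natural number -/
theorem red_nat (M : Ideal (integralClosure ℤ ℂ)) (m : ℕ) : red M (m : ℂ) = (m : FF M) := by
  rw [red_of (AI.natCast m)]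
  have : (⟨(m : ℂ), AI.natCast m⟩ : integralClosure ℤ ℂ) = (m : integralClosure ℤ ℂ) := by
    apply Subtype.ext; push_cast; rfl
  rw [this, map_natCast]

theorem red_int (M : Ideal (integralClosure ℤ ℂ)) (m : ℤ) : red M (m : ℂ) = (m : FF M) := by
  have hi : IsIntegral ℤ (m : ℂ) := by
    have := isIntegral_algebraMap (R := ℤ) (A := ℂ) (x := m); simpa using this
  rw [red_of hi]
  have : (⟨(m : ℂ), hi⟩ : integralClosure ℤ ℂ) = (m : integralClosure ℤ ℂ) := by
    apply Subtype.ext; push_cast; rfl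
  rw [this, map_intCast]

/-- powers of residues of natural numbers -/
theorem pow_red (ℓ : ℕ) [hp : Fact ℓ.Prime] (M : Ideal (integralClosure ℤ ℂ)) [M.IsMaximal]
    (hℓ : (ℓ : integralClosure ℤ ℂ) ∈ M) {k : ℕ} (hk : 0 < k) (hdk : ℓ - 1 ∣ k) (m : ℕ) :
    (m : FF M) ^ k = if ℓ ∣ m then 0 else 1 := by
  have hz : (ℓ : FF M) = 0 := by
    have h1 : Ideal.Quotient.mk M (ℓ : integralClosure ℤ ℂ) = 0 := Ideal.Quotient.eq_zero_iff_mem.2 hℓ
    rw [map_natCast] at h1
    exact h1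
  split_ifs with h
  · obtain ⟨j, rfl⟩ := h
    rw [Nat.cast_mul, hz, zero_mul, zero_pow hk.ne']
  · obtain ⟨j, rfl⟩ := hdk
    have h1 : m ^ ((ℓ - 1) * j) ≡ 1 [MOD ℓ] := by
      rw [pow_mul]
      have hcop : Nat.Coprime m ℓ := ((Nat.Prime.coprime_iff_not_dvd hp.out).2 h).symm
      have h2 := Nat.ModEq.pow_totient hcop
      rw [Nat.totient_prime hp.out] at h2
      calc (m ^ (ℓ - 1)) ^ j ≡ 1 ^ j [MOD ℓ] := h2.pow j
        _ = 1 := one_pow j
    have h2 : (ℓ : ℤ) ∣ ((m ^ ((ℓ - 1) * j) : ℕ) : ℤ) - ((1 : ℕ) : ℤ) :=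
      (Nat.modEq_iff_dvd.1 h1.symm)
    obtain ⟨c, hc⟩ := h2
    have h3 := congrArg (fun z : ℤ => (z : FF M)) hc
    push_cast at h3
    rw [hz, zero_mul, sub_eq_zero] at h3
    exact h3

/-- in a group with `O_ℓ(G) = 1` the characters of defect zero are those of degree with the full
`ℓ`-part -/
theorem dz_iff {ℓ : ℕ} [hp : Fact ℓ.Prime] {M : Ideal (integralClosure ℤ ℂ)} [hM : M.IsMaximal]
    (hℓ : (ℓ : integralClosure ℤ ℂ) ∈ M) {G : Type} [Group G] [Fintype G]
    (hO : opCore ℓ G = ⊥) {χ : G → ℂ} (hχ : χ ∈ Irr G) {m : ℕ}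
    (hm : (Fintype.card G : ℂ) / χ 1 = m) : LargeDefect ℓ M χ ↔ ℓ ∣ m := by
  have hP : M.IsPrime := hM.isPrime
  constructor
  · rintro ⟨ψ, hψ, hb, n, hn, hdvd⟩
    rw [hO, Subgroup.card_bot, mul_one] at hdvd
    have h1 : Cong M ((Fintype.card G : ℂ) / ψ 1) 0 := by
      obtain ⟨k, hk⟩ := hdvd
      rw [Nat.card_eq_fintype_card] at hk
      have hn0 : (n : ℂ) ≠ 0 := by rw [← hn]; exact irr_one_ne hψ
      have h2 : (Fintype.card G : ℂ) / ψ 1 = ((ℓ * k : ℕ) : ℂ) := by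
        rw [hn, hk, div_eq_iff hn0]
        push_cast
        ring
      rw [h2]
      exact cong_nat_of_dvd hℓ (dvd_mul_right ℓ k)
    have h2 := defect_block hχ hψ hb h1
    rw [hm] at h2
    exact dvd_of_cong_nat hp.out hℓ h2
  · intro h
    obtain ⟨d, hd, hd'⟩ := irr_one hχ
    refine ⟨χ, hχ, fun g => Cong.refl _, d, hd', ?_⟩
    rw [hO, Subgroup.card_bot, mul_one, Nat.card_eq_fintype_card]
    have hd0 : (d : ℂ) ≠ 0 := by exact_mod_cast hd.ne'
    rw [hd', div_eq_iff hd0] at hm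
    have h3 : Fintype.card G = m * d := by exact_mod_cast hm
    rw [h3]
    exact Nat.mul_dvd_mul_right h d

theorem exists_normal {ℓ : ℕ} {G : Type} [Group G] (h : opCore ℓ G ≠ ⊥) :
    ∃ N : Subgroup G, N.Normal ∧ IsPGroup ℓ N ∧ N ≠ ⊥ := by
  by_contra hcon
  push Not at hcon
  apply h
  rw [opCore, sSup_eq_bot]
  intro N hN
  exact hcon N hN.1 hN.2

theorem grd (hG : GenusStmt) : GredStmt := by
  classical
  intro ℓ hp M hM hℓ g hg hdvd G _ _ c
  have := Fintype.ofFinite G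
  have hfin : (Irr G).Finite := irr_finite'
  have hP : M.IsPrime := hM.isPrime
  -- the codegrees
  have hex : ∀ χ : G → ℂ, ∃ m : ℕ, χ ∈ Irr G → (Fintype.card G : ℂ) / χ 1 = m := by
    intro χ
    by_cases hχ : χ ∈ Irr G
    · obtain ⟨m, hm⟩ := codeg_nat hχ
      exact ⟨m, fun _ => hm⟩
    · exact ⟨0, fun h => absurd h hχ⟩
  choose q hq using hex
  have hk : 0 < 2 * g - 2 := by omega
  set Z : ℂ := ∑ χ ∈ hfin.toFinset, (q χ : ℂ) ^ (2 * g - 2) * omega (MonoidHom.id G) χ c with hZ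
  have hZi : IsIntegral ℤ Z := by
    apply IsIntegral.sum
    intro χ hχ
    exact ((AI.natCast _).pow _).mul (omega_integral _ (hfin.mem_toFinset.1 hχ) _)
  have h1 : ((commg g c : ℕ) : ℂ) = (cz c : ℂ) * Z := by
    rw [hG G g hg.le c, finsum_mem_eq_finite_toFinset_sum _ hfin, hZ, Finset.mul_sum,
      Finset.mul_sum]
    apply Finset.sum_congr rfl
    intro χ hχ
    have hχ' := hfin.mem_toFinset.1 hχ
    have h0 := irr_one_ne hχ'
    have h2 := cent_eq hχ' c
    have h3 : 2 * g - 1 = (2 * g - 2) + 1 := by omega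
    calc (Nat.card G : ℂ) ^ (2 * g - 1) * (χ c / χ 1 ^ (2 * g - 1))
        = ((Fintype.card G : ℂ) / χ 1) ^ (2 * g - 2) * ((Fintype.card G : ℂ) / χ 1 * χ c) := by
          rw [h3, Nat.card_eq_fintype_card, pow_succ, pow_succ, div_pow]
          field_simp
      _ = _ := by
          rw [h2, hq χ hχ', cz]
          ring
  have hcz : (0 : ℕ) < cz c := Nat.card_pos
  have hczC : (cz c : ℂ) ≠ 0 := by exact_mod_cast hcz.ne'
  have h2 : Z = (((commg g c : ℕ) : ℤ) : ℂ) / (((cz c : ℕ) : ℤ) : ℂ) := by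
    push_cast
    rw [h1]
    field_simp
  obtain ⟨n, hn⟩ := rat_int (a := ((commg g c : ℕ) : ℤ)) (b := ((cz c : ℕ) : ℤ)) (by
    rw [← h2]; exact hZi)
  rw [← h2] at hn
  refine ⟨n, ?_, ?_⟩
  · have h3 : ((commg g c : ℕ) : ℂ) = (cz c : ℂ) * n := by rw [h1, hn]
    exact_mod_cast h3
  have h4 : (n : FF M) = ∑ χ ∈ hfin.toFinset,
      (if ℓ ∣ q χ then 0 else labF M χ c) := by
    rw [← red_int, ← hn, hZ, red_sum]
    · apply Finset.sum_congr rfl
      intro χ hχ
      have hχ' := hfin.mem_toFinset.1 hχ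
      rw [red_mul ((AI.natCast _).pow _) (omega_integral _ hχ' _), red_pow (AI.natCast _),
        red_nat, pow_red ℓ M hℓ hk hdvd]
      split_ifs
      · rw [zero_mul]
      · rw [one_mul, labF]
    · intro χ hχ
      exact ((AI.natCast _).pow _).mul (omega_integral _ (hfin.mem_toFinset.1 hχ) _)
  rw [h4]
  split_ifs with hO
  · have hfin' : (DZ ℓ M G).Finite := hfin.subset (fun χ hχ => hχ.1)
    rw [finsum_mem_eq_finite_toFinset_sum _ hfin']
    have h5 : hfin'.toFinset = hfin.toFinset.filter (fun χ => ¬ ℓ ∣ q χ) := by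
      ext χ
      rw [Finset.mem_filter, hfin.mem_toFinset, hfin'.mem_toFinset]
      constructor
      · rintro ⟨ha, hb⟩
        exact ⟨ha, fun h' => hb ((dz_iff hℓ hO ha (hq χ ha)).2 h')⟩
      · rintro ⟨ha, hb⟩
        exact ⟨ha, fun h' => hb ((dz_iff hℓ hO ha (hq χ ha)).1 h')⟩
    rw [h5, Finset.sum_filter]
    apply Finset.sum_congr rfl
    intro χ _
    by_cases h : ℓ ∣ q χ
    · rw [if_pos h, if_neg (not_not.2 h)]
    · rw [if_neg h, if_pos h]
  · obtain ⟨N, hN, hNp, hNe⟩ := exists_normal hO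
    apply Finset.sum_eq_zero
    intro χ hχ
    have hχ' := hfin.mem_toFinset.1 hχ
    have h5 := defect_normal hℓ hN hNp hNe hχ'
    rw [hq χ hχ'] at h5
    rw [if_pos (dvd_of_cong_nat hp.out hℓ h5)]

end Pool.Agent.Helper26_CC
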